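import Pool.Agent.TH739.SN.Orders8
import Pool.Agent.TH983.ST.V1809

/-!
The closure theorem for a linear space with lines of size `k`: from `S(n,k,2)` and
`S((k-1)k+1,k,2)` to `S((k-1)n+1,k,2)`; the order `14473 = 8 * 1809 + 1` for block size `9`.
-/

set_option autoImplicit false

namespace Pool.Agent.TH739.SN

open Pool.Agent.H816R2.KM2

/-- weight `k - 1` for the points of a Steiner system `S(n,k,2)` -/
theorem inflate {g n : ℕ} (hg : 0 < g)
    (h : ∃ 𝓑 : Set (Finset (Fin n)), IsS2 (Fin n) (g + 1) 𝓑) (hn : 1 < n) (hq : Ok g (g + 1)) :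
    Ok g n := by
  classical
  obtain ⟨𝓑, h1, h2⟩ := h
  have hc := closure (g := g) (X := Fin n) (Λ := {B : Finset (Fin n) // B ∈ 𝓑})
    (inc := fun x l => x ∈ l.1) hg ?_ ?_ ?_
  · unfold Ok
    rwa [Nat.card_eq_fintype_card, Fintype.card_fin] at hc
  · intro x y hxy
    obtain ⟨B, ⟨hB, hx, hy⟩, hu⟩ := h2 x y hxy
    refine ⟨⟨B, hB⟩, ⟨hx, hy⟩, ?_⟩
    rintro ⟨C, hC⟩ ⟨hx', hy'⟩
    exact Subtype.ext (hu C ⟨hC, hx', hy'⟩)
  · intro x
    have : Nontrivial (Fin n) := Fin.nontrivial_iff_two_le.2 hn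
    obtain ⟨y, hy⟩ := exists_ne x
    obtain ⟨B, ⟨hB, hx, -⟩, -⟩ := h2 x y hy.symm
    exact ⟨⟨B, hB⟩, hx⟩
  · rintro ⟨B, hB⟩
    have e : Nat.card (Pts (fun (x : Fin n) (l : {B : Finset (Fin n) // B ∈ 𝓑}) => x ∈ l.1) ⟨B, hB⟩)
        = g + 1 := by
      rw [← h1 B hB]
      exact (Nat.card_eq_fintype_card (α := {x : Fin n // x ∈ B})).trans (Fintype.card_coe B)
    rw [e]
    exact hq

theorem ok8_9 : Ok 8 9 := d73

/-- `14473 = 8 * 1809 + 1` -/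
theorem ok1809 : Ok 8 1809 :=
  inflate (by norm_num) Pool.Agent.TH983.ST.s1809 (by norm_num) ok8_9

end Pool.Agent.TH739.SN
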