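import Pool.Agent.H816R2.KM2N

/-!
Steiner systems `S(801,9,2)` and `S(937,9,2)` from difference families over `ℤ_3^2 × ℤ_89` and
`ℤ_937`.
-/

set_option autoImplicit false
set_option maxRecDepth 100000

namespace Pool.Agent.TH739.SN

open Pool.Agent.H816R2.KM2

def full937 : List (List ℕ) :=
  [[1, 82, 168, 211, 248, 322, 478, 614, 687],
   [148, 546, 578, 590, 593, 706, 735, 806, 920],
   [179, 277, 369, 473, 481, 512, 749, 756, 889],
   [28, 326, 366, 392, 583, 666, 727, 781, 816],
   [91, 255, 337, 430, 591, 721, 723, 759, 778],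
   [126, 186, 235, 281, 530, 710, 827, 861, 929],
   [61, 111, 136, 317, 679, 690, 878, 902, 911],
   [384, 442, 511, 567, 589, 595, 796, 837, 901],
   [21, 31, 203, 294, 311, 612, 713, 743, 820],
   [115, 209, 308, 335, 487, 771, 775, 791, 894],
   [64, 386, 445, 563, 608, 866, 879, 880, 931],
   [49, 102, 190, 208, 275, 280, 449, 472, 786],
   [149, 191, 212, 288, 597, 676, 800, 862, 910]]

theorem d937 : ∃ 𝓑 : Set (Finset (Fin 937)), IsS2 (Fin 937) 9 𝓑 :=
  of_coded (codedZ 937) 9 1 0 937 rfl full937 []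
    (by decide +kernel) (by decide +kernel) (by decide +kernel) (by decide +kernel)
    (by decide +kernel) (by decide +kernel)

def full801 : List (List ℕ) :=
  [[0, 170, 172, 234, 347, 392, 582, 713, 747],
   [0, 24, 266, 532, 549, 558, 650, 743, 764],
   [0, 332, 343, 357, 468, 623, 689, 693, 779],
   [0, 42, 262, 297, 315, 497, 527, 680, 719],
   [0, 135, 443, 572, 585, 656, 685, 708, 752],
   [0, 78, 191, 248, 523, 554, 594, 629, 630],
   [0, 83, 270, 338, 369, 503, 568, 609, 698],
   [0, 150, 244, 302, 380, 387, 449, 459, 491],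
   [0, 164, 197, 334, 411, 540, 590, 671, 738],
   [0, 89, 117, 176, 294, 487, 599, 758, 774],
   [0, 15, 279, 326, 374, 386, 536, 667, 675]]

def short801 : List (List ℕ × List ℕ) :=
  [((List.range 89).map fun x => 9 * x, [0, 1, 2, 3, 4, 5, 6, 7, 8])]

theorem d801 : ∃ 𝓑 : Set (Finset (Fin 801)), IsS2 (Fin 801) 9 𝓑 :=
  of_coded (codedP 3 (codedP 3 (codedZ 89))) 9 1 0 801 rfl full801 short801
    (by decide +kernel) (by decide +kernel) (by decide +kernel) (by decide +kernel)
    (by decide +kernel) (by decide +kernel)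

end Pool.Agent.TH739.SN
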