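import Pool.Agent.H816R2.KM2N

/-!
The projective plane of order `7` and the affine plane of order `8`.
-/

set_option autoImplicit false
set_option maxRecDepth 100000

namespace Pool.Agent.TH739.SN

open Pool.Agent.H816R2.KM2

theorem d57 : ∃ 𝓑 : Set (Finset (Fin 57)), IsS2 (Fin 57) 8 𝓑 :=
  of_coded (codedZ 57) 8 1 0 57 rfl [[0, 1, 3, 13, 32, 36, 43, 52]] []
    (by decide +kernel) (by decide +kernel) (by decide +kernel) (by decide +kernel)
    (by decide +kernel) (by decide +kernel)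

def short64 : List (List ℕ × List ℕ) :=
  [([0, 2, 4, 6, 32, 34, 36, 38],
    [0, 1, 14, 15, 22, 23, 24, 25]),
   ([0, 1, 4, 5, 8, 9, 12, 13],
    [0, 2, 28, 30, 44, 46, 48, 50]),
   ([0, 1, 2, 3, 8, 9, 10, 11],
    [0, 4, 27, 31, 35, 39, 56, 60]),
   ([0, 1, 2, 3, 16, 17, 18, 19],
    [0, 5, 8, 13, 51, 54, 59, 62]),
   ([0, 1, 2, 3, 4, 5, 6, 7],
    [0, 10, 16, 26, 37, 47, 53, 63]),
   ([0, 1, 2, 3, 4, 5, 6, 7],
    [0, 9, 20, 29, 32, 41, 52, 61]),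
   ([0, 1, 4, 5, 8, 9, 12, 13],
    [0, 3, 17, 18, 40, 43, 57, 58]),
   ([0, 1, 2, 3, 8, 9, 10, 11],
    [0, 6, 19, 21, 34, 36, 49, 55]),
   ([0, 1, 2, 3, 16, 17, 18, 19],
    [0, 7, 11, 12, 33, 38, 42, 45])]

theorem d64 : ∃ 𝓑 : Set (Finset (Fin 64)), IsS2 (Fin 64) 8 𝓑 :=
  of_coded (codedP 2 (codedP 2 (codedP 2 (codedP 2 (codedP 2 (codedZ 2)))))) 8 1 0 64 rfl [] short64
    (by decide +kernel) (by decide +kernel) (by decide +kernel) (by decide +kernel)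
    (by decide +kernel) (by decide +kernel)

end Pool.Agent.TH739.SN
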