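import Pool.Agent.H816R2.KM2

/-!
The closure of the orders of Steiner systems `S(n,k,2)` under linear spaces (Wilson): if every line
`ℓ` of a linear space carries a system of order `(k - 1) |ℓ| + 1` then there is a system of order
`(k - 1) n + 1`, `n` the number of points of the space.
-/

set_option autoImplicit false

namespace Pool.Agent.TH739.SN

open Finset

/-- there is a Steiner system with blocks of size `k` on the set `X` -/
def Ex (k : ℕ) (X : Type) : Prop :=
  ∃ 𝓑 : Set (Finset X), (∀ B ∈ 𝓑, B.card = k) ∧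
    ∀ a b : X, a ≠ b → ∃! B, B ∈ 𝓑 ∧ a ∈ B ∧ b ∈ B

theorem Ex.congr {k : ℕ} {X Y : Type} (e : X ≃ Y) (h : Ex k X) : Ex k Y := by
  classical
  exact Pool.Agent.H816R2.KM2.transport k e h

/-- the block `{∞} ∪ ({y} × Fin g)` -/
def fib (g : ℕ) {Y : Type} (y : Y) : Finset (Option (Y × Fin g)) :=
  Finset.insertNone ((Finset.univ : Finset (Fin g)).map
    ⟨fun i => (y, i), fun _ _ h => (Prod.ext_iff.1 h).2⟩)

theorem none_mem_fib (g : ℕ) {Y : Type} (y : Y) : none ∈ fib g y := by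
  unfold fib
  rw [Finset.mem_insertNone]
  intro a ha
  exact absurd ha (by simp)

theorem some_mem_fib {g : ℕ} {Y : Type} {y : Y} {p : Y × Fin g} : some p ∈ fib g y ↔ p.1 = y := by
  unfold fib
  rw [Finset.some_mem_insertNone, Finset.mem_map]
  constructor
  · rintro ⟨i, _, rfl⟩
    rfl
  · rintro rfl
    exact ⟨p.2, Finset.mem_univ _, rfl⟩

/-- a system in normal form at a point -/
theorem normal0 {g : ℕ} (hg : 0 < g) (Y Z : Type) [Fintype Y] [Fintype Z]
    (hZ : Fintype.card Z = g * Fintype.card Y) (h : Ex (g + 1) (Option Z)) :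
    ∃ 𝓑 : Set (Finset (Option (Y × Fin g))), (∀ B ∈ 𝓑, B.card = g + 1) ∧
      (∀ a b, a ≠ b → ∃! B, B ∈ 𝓑 ∧ a ∈ B ∧ b ∈ B) ∧ ∀ y : Y, fib g y ∈ 𝓑 := by
  classical
  obtain ⟨𝓑, h1, h2⟩ := h
  let Q : Type := {B : Finset (Option Z) // B ∈ 𝓑 ∧ none ∈ B}
  have hne : ∀ z : Z, (none : Option Z) ≠ some z := fun z => by simp
  choose β hβ hβu using fun z : Z => h2 none (some z) (hne z)
  simp only at hβ hβu
  let φ : Z → Q := fun z => ⟨β z, (hβ z).1, (hβ z).2.1⟩
  have hφ : ∀ (z : Z) (q : Q), φ z = q ↔ some z ∈ q.1 := by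
    intro z q
    constructor
    · rintro rfl
      exact (hβ z).2.2
    · intro hz
      exact Subtype.ext (hβu z q.1 ⟨q.2.1, q.2.2, hz⟩).symm
  have hfc : ∀ q : Q, Fintype.card {z // φ z = q} = g := by
    intro q
    have e1 : Fintype.card {z // φ z = q} = (Finset.eraseNone q.1).card := by
      rw [Fintype.card_subtype]
      congr 1
      ext z
      rw [Finset.mem_filter, Finset.mem_eraseNone, hφ]
      simp
    have e2 : (Finset.insertNone (Finset.eraseNone q.1)) = q.1 := by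
      rw [Finset.insertNone_eraseNone, Finset.insert_eq_of_mem q.2.2]
    have e3 := congrArg Finset.card e2
    rw [Finset.card_insertNone, h1 q.1 q.2.1] at e3
    rw [e1]
    omega
  let e0 : Z ≃ Q × Fin g := (Equiv.sigmaFiberEquiv φ).symm.trans
    ((Equiv.sigmaCongrRight fun q => Fintype.equivFinOfCardEq (hfc q)).trans
      (Equiv.sigmaEquivProd Q (Fin g)))
  have he0 : ∀ z, (e0 z).1 = φ z := fun z => rfl
  have hQ : Fintype.card Q = Fintype.card Y := by
    have h3 := Fintype.card_congr e0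
    rw [Fintype.card_prod, Fintype.card_fin, hZ] at h3
    rw [Nat.mul_comm] at h3
    exact (Nat.eq_of_mul_eq_mul_right hg h3).symm
  let e1 : Q ≃ Y := Fintype.equivOfCardEq hQ
  let e : Z ≃ Y × Fin g := e0.trans (Equiv.prodCongr e1 (Equiv.refl _))
  have he : ∀ z, (e z).1 = e1 (φ z) := fun z => rfl
  let E : Option Z ≃ Option (Y × Fin g) := Equiv.optionCongr e
  refine ⟨{C | ∃ B ∈ 𝓑, C = B.map E.toEmbedding}, ?_, ?_, ?_⟩
  · rintro C ⟨B, hB, rfl⟩
    rw [Finset.card_map]
    exact h1 B hB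
  · intro a b hab
    obtain ⟨B, ⟨hB, ha, hb⟩, hu⟩ := h2 (E.symm a) (E.symm b) (fun h => hab (E.symm.injective h))
    refine ⟨B.map E.toEmbedding, ⟨⟨B, hB, rfl⟩, ?_, ?_⟩, ?_⟩
    · rwa [Finset.mem_map_equiv]
    · rwa [Finset.mem_map_equiv]
    · rintro C ⟨⟨B', hB', rfl⟩, ha', hb'⟩
      rw [Finset.mem_map_equiv] at ha' hb'
      rw [hu B' ⟨hB', ha', hb'⟩]
  · intro y
    refine ⟨(e1.symm y).1, (e1.symm y).2.1, ?_⟩
    ext o
    rw [Finset.mem_map_equiv]
    rcases o with _ | p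
    · have : E.symm none = none := rfl
      rw [this]
      exact ⟨fun _ => (e1.symm y).2.2, fun _ => none_mem_fib g y⟩
    · have : E.symm (some p) = some (e.symm p) := rfl
      rw [this, some_mem_fib, ← hφ]
      have h4 : e1 (φ (e.symm p)) = p.1 := by
        rw [← he, Equiv.apply_symm_apply]
      rw [← h4, Equiv.eq_symm_apply]

theorem normal {g : ℕ} (hg : 0 < g) (Y : Type) [Fintype Y]
    (h : Ex (g + 1) (Fin (g * Fintype.card Y + 1))) :
    ∃ 𝓑 : Set (Finset (Option (Y × Fin g))), (∀ B ∈ 𝓑, B.card = g + 1) ∧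
      (∀ a b, a ≠ b → ∃! B, B ∈ 𝓑 ∧ a ∈ B ∧ b ∈ B) ∧ ∀ y : Y, fib g y ∈ 𝓑 :=
  normal0 hg Y (Fin (g * Fintype.card Y)) (Fintype.card_fin _)
    (h.congr (finSuccEquiv (g * Fintype.card Y)))

section closure

variable {X Λ : Type} {inc : X → Λ → Prop}

/-- the points of a line -/
abbrev Pts (inc : X → Λ → Prop) (l : Λ) : Type := {x : X // inc x l}

/-- the inclusion for a line -/
def iot (g : ℕ) (inc : X → Λ → Prop) (l : Λ) : Option (Pts inc l × Fin g) ↪ Option (X × Fin g) where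
  toFun := Option.map (Prod.map Subtype.val id)
  inj' := Option.map_injective (Function.Injective.prodMap Subtype.val_injective
    Function.injective_id)

theorem some_mem_map {g : ℕ} {l : Λ} {B : Finset (Option (Pts inc l × Fin g))} {x : X} {i : Fin g} :
    some (x, i) ∈ B.map (iot g inc l) ↔ ∃ hx : inc x l, some ((⟨x, hx⟩ : Pts inc l), i) ∈ B := by
  rw [Finset.mem_map]
  constructor
  · rintro ⟨o, ho, h⟩
    rcases o with _ | ⟨⟨y, hy⟩, j⟩
    · have h' : (none : Option (X × Fin g)) = some (x, i) := h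
      exact absurd h' (by simp)
    · have h' : some (y, j) = some (x, i) := h
      rw [Option.some_inj, Prod.mk.injEq] at h'
      obtain ⟨rfl, rfl⟩ := h'
      exact ⟨hy, ho⟩
  · rintro ⟨hx, h⟩
    exact ⟨_, h, rfl⟩

theorem none_mem_map {g : ℕ} {l : Λ} {B : Finset (Option (Pts inc l × Fin g))} :
    none ∈ B.map (iot g inc l) ↔ none ∈ B := by
  rw [Finset.mem_map]
  constructor
  · rintro ⟨o, ho, h⟩
    rcases o with _ | ⟨⟨y, hy⟩, j⟩
    · exact ho
    · have h' : some (y, j) = (none : Option (X × Fin g)) := h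
      exact absurd h' (by simp)
  · intro h
    exact ⟨none, h, rfl⟩

theorem fib_map {g : ℕ} {l : Λ} {x : X} (hx : inc x l) :
    (fib g (⟨x, hx⟩ : Pts inc l)).map (iot g inc l) = fib g x := by
  ext o
  rcases o with _ | ⟨y, i⟩
  · rw [none_mem_map]
    exact ⟨fun _ => none_mem_fib g x, fun _ => none_mem_fib g _⟩
  · rw [some_mem_map, some_mem_fib]
    constructor
    · rintro ⟨hy, h⟩
      rw [some_mem_fib] at h
      exact congrArg Subtype.val h
    · rintro h
      have h' : y = x := h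
      subst h'
      exact ⟨hx, some_mem_fib.2 rfl⟩

/-- **The closure theorem.** -/
theorem closure {g : ℕ} (hg : 0 < g) [Finite X]
    (hinc : ∀ x y : X, x ≠ y → ∃! l, inc x l ∧ inc y l) (hpt : ∀ x : X, ∃ l, inc x l)
    (hl : ∀ l : Λ, Ex (g + 1) (Fin (g * Nat.card (Pts inc l) + 1))) :
    Ex (g + 1) (Fin (g * Nat.card X + 1)) := by
  classical
  have := Fintype.ofFinite X
  have hn : ∀ l : Λ, ∃ 𝓑 : Set (Finset (Option (Pts inc l × Fin g))),
      (∀ B ∈ 𝓑, B.card = g + 1) ∧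
      (∀ a b, a ≠ b → ∃! B, B ∈ 𝓑 ∧ a ∈ B ∧ b ∈ B) ∧ ∀ y, fib g y ∈ 𝓑 := by
    intro l
    refine normal hg (Pts inc l) ?_
    have := hl l
    rwa [Nat.card_eq_fintype_card] at this
  choose 𝓑 hk hu hf using hn
  have main : Ex (g + 1) (Option (X × Fin g)) := by
    refine ⟨{C | ∃ l, ∃ B ∈ 𝓑 l, C = B.map (iot g inc l)}, ?_, ?_⟩
    · rintro C ⟨l, B, hB, rfl⟩
      rw [Finset.card_map]
      exact hk l B hB
    · -- pairs in a fibre
      have key : ∀ (x : X) (i : Fin g) (b : Option (X × Fin g)), some (x, i) ≠ b → b ∈ fib g x →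
          ∃ C, (C ∈ {C | ∃ l, ∃ B ∈ 𝓑 l, C = B.map (iot g inc l)} ∧ some (x, i) ∈ C ∧ b ∈ C) ∧
          ∀ C', (C' ∈ {C | ∃ l, ∃ B ∈ 𝓑 l, C = B.map (iot g inc l)} ∧ some (x, i) ∈ C' ∧ b ∈ C') →
            C' = C := by
        intro x i b hab hb
        obtain ⟨l, hxl⟩ := hpt x
        refine ⟨fib g x, ⟨⟨l, _, hf l ⟨x, hxl⟩, (fib_map hxl).symm⟩, some_mem_fib.2 rfl, hb⟩, ?_⟩
        rintro C' ⟨⟨m, B, hB, rfl⟩, ha', hb'⟩
        obtain ⟨hxm, hxB⟩ := some_mem_map.1 ha'
        rw [← fib_map hxm]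
        congr 1
        rcases b with _ | ⟨y, j⟩
        · rw [none_mem_map] at hb'
          have hne : some ((⟨x, hxm⟩ : Pts inc m), i) ≠ none := by simp
          exact (hu m _ _ hne).unique ⟨hB, hxB, hb'⟩
            ⟨hf m ⟨x, hxm⟩, some_mem_fib.2 rfl, none_mem_fib g _⟩
        · obtain ⟨hym, hyB⟩ := some_mem_map.1 hb'
          have hyx : y = x := some_mem_fib.1 hb
          subst hyx
          have hne : some ((⟨y, hxm⟩ : Pts inc m), i) ≠ some ((⟨y, hxm⟩ : Pts inc m), j) := by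
            intro h
            rw [Option.some_inj, Prod.mk.injEq] at h
            exact hab (by rw [h.2])
          exact (hu m _ _ hne).unique ⟨hB, hxB, hyB⟩
            ⟨hf m ⟨y, hxm⟩, some_mem_fib.2 rfl, some_mem_fib.2 rfl⟩
      intro a b hab
      rcases a with _ | ⟨x, i⟩
      · rcases b with _ | ⟨y, j⟩
        · exact absurd rfl hab
        · obtain ⟨C, ⟨h1, h2, h3⟩, h4⟩ := key y j none (fun h => hab h.symm) (none_mem_fib g y)
          exact ⟨C, ⟨h1, h3, h2⟩, fun C' hC' => h4 C' ⟨hC'.1, hC'.2.2, hC'.2.1⟩⟩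
      · by_cases hb : b ∈ fib g x
        · obtain ⟨C, h1, h4⟩ := key x i b hab hb
          exact ⟨C, h1, h4⟩
        · rcases b with _ | ⟨y, j⟩
          · exact absurd (none_mem_fib g x) hb
          · have hyx : x ≠ y := by
              intro h
              exact hb (some_mem_fib.2 h.symm)
            obtain ⟨l, ⟨hxl, hyl⟩, hlu⟩ := hinc x y hyx
            have hne : some ((⟨x, hxl⟩ : Pts inc l), i) ≠ some ((⟨y, hyl⟩ : Pts inc l), j) := by
              intro h
              rw [Option.some_inj, Prod.mk.injEq, Subtype.mk.injEq] at h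
              exact hyx h.1
            obtain ⟨B, ⟨hB, hxB, hyB⟩, hBu⟩ := hu l _ _ hne
            refine ⟨B.map (iot g inc l), ⟨⟨l, B, hB, rfl⟩, some_mem_map.2 ⟨hxl, hxB⟩,
              some_mem_map.2 ⟨hyl, hyB⟩⟩, ?_⟩
            rintro C' ⟨⟨m, B', hB', rfl⟩, ha', hb'⟩
            obtain ⟨hxm, hxB'⟩ := some_mem_map.1 ha'
            obtain ⟨hym, hyB'⟩ := some_mem_map.1 hb'
            have hml : m = l := hlu m ⟨hxm, hym⟩
            subst hml
            rw [hBu B' ⟨hB', hxB', hyB'⟩]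
  refine main.congr ?_
  refine Fintype.equivFinOfCardEq ?_
  rw [Fintype.card_option, Fintype.card_prod, Fintype.card_fin, Nat.card_eq_fintype_card,
    Nat.mul_comm]

end closure

end Pool.Agent.TH739.SN
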