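import Pool.Agent.TH739.SN.TD
import Pool.Agent.H816R2.KM2N

/-!
Truncated transversal designs from difference matrices given by codes, and the difference matrix
with `80` columns (Abel, Cheng).
-/

set_option autoImplicit false
set_option maxRecDepth 100000

namespace Pool.Agent.TH739.SN

open Pool.Agent.H816R2.KM2

/-- the entry of a matrix of codes -/
def ent (rows : List (List ℕ)) (i b : ℕ) : ℕ := (rows.getD i []).getD b 0

/-- the check of a difference matrix -/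
def okDM {N : Type} [AddCommGroup N] [Fintype N] (C : Coded N) (m : ℕ) (rows : List (List ℕ)) :
    Bool :=
  ((List.range m).all fun i => (List.range C.nn).all fun b => decide (ent rows i b < C.nn)) &&
    ((List.range m).all fun i => (List.range m).all fun j => i == j ||
      addBits ((List.range C.nn).map fun b => C.addc (ent rows i b) (C.negc (ent rows j b))) 0 ==
        2 ^ C.nn - 1)

theorem okDM_spec {N : Type} [AddCommGroup N] [Fintype N] (C : Coded N) (m : ℕ)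
    (rows : List (List ℕ)) (h : okDM C m rows = true) (i j : Fin m) (hij : i ≠ j) :
    Function.Bijective fun b : Fin C.nn =>
      C.en (ent rows i b) - C.en (ent rows j b) := by
  classical
  unfold okDM at h
  rw [Bool.and_eq_true, List.all_eq_true, List.all_eq_true] at h
  obtain ⟨h1, h2⟩ := h
  have hlt : ∀ (i : Fin m) (b : ℕ), b < C.nn → ent rows i b < C.nn := by
    intro i b hb
    have h3 := h1 i (List.mem_range.2 i.2)
    rw [List.all_eq_true] at h3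
    exact of_decide_eq_true (h3 b (List.mem_range.2 hb))
  have h3 := h2 i (List.mem_range.2 i.2)
  rw [List.all_eq_true] at h3
  have h4 := h3 j (List.mem_range.2 j.2)
  rw [Bool.or_eq_true, beq_iff_eq, beq_iff_eq] at h4
  have h5 := h4.resolve_left (fun h => hij (Fin.ext h))
  rw [Fintype.bijective_iff_surjective_and_card]
  refine ⟨?_, ?_⟩
  · intro z
    obtain ⟨a, ha, rfl⟩ := C.hen z
    have h6 : Nat.testBit (2 ^ C.nn - 1) a = true := by
      rw [Nat.testBit_two_pow_sub_one]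
      exact decide_eq_true ha
    rw [← h5, addBits_spec] at h6
    rcases h6 with h6 | h6
    · simp at h6
    · rw [List.mem_map] at h6
      obtain ⟨b, hb, rfl⟩ := h6
      have hb' := List.mem_range.1 hb
      refine ⟨⟨b, hb'⟩, ?_⟩
      have h7 := C.hneg (ent rows j b) (hlt j b hb')
      have h8 := C.hadd (ent rows i b) (hlt i b hb') (C.negc (ent rows j b)) h7.1
      change C.en (ent rows i b) - C.en (ent rows j b) = _
      rw [h8.2, h7.2, sub_eq_add_neg]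
  · rw [Fintype.card_fin, C.hN]

/-- systems from a difference matrix -/
theorem truncated_dm {g : ℕ} (hg : 0 < g) {N : Type} [AddCommGroup N] [Fintype N] (C : Coded N)
    {m : ℕ} (rows : List (List ℕ)) (h : okDM C m rows = true) {q s e : ℕ} (hq : C.nn = q)
    (hs : s ≤ q) (he : e ≤ 1) (h1 : Ok g m) (h2 : Ok g (m + 1)) (h3 : Ok g (q + e))
    (h4 : Ok g (s + e)) : Ok g (m * q + s + e) := by
  refine truncated hg (fun (i : Fin m) (b : Fin C.nn) => C.en (ent rows i b))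
    (okDM_spec C m rows h) ?_ ?_ hs he h1 h2 h3 h4
  · rw [Nat.card_eq_fintype_card, C.hN, hq]
  · rw [Nat.card_eq_fintype_card, Fintype.card_fin, hq]

/-- nine rows of a difference matrix over `ℤ_2^4 × ℤ_5` -/
def dm80 : List (List ℕ) :=
  [[0, 0, 0, 0, 0, 0, 0, 0, 0, 0, 0, 0, 0, 0, 0, 0, 0, 0, 0, 0, 0, 0, 0, 0, 0, 0, 0, 0, 0, 0,
    0, 0, 0, 0, 0, 0, 0, 0, 0, 0, 0, 0, 0, 0, 0, 0, 0, 0, 0, 0, 0, 0, 0, 0, 0, 0, 0, 0, 0,
    0, 0, 0, 0, 0, 0, 0, 0, 0, 0, 0, 0, 0, 0, 0, 0, 0, 0, 0, 0, 0],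
   [0, 1, 2, 3, 4, 5, 6, 7, 16, 17, 18, 19, 20, 21, 22, 23, 40, 41, 42, 43, 44, 45, 46, 47,
    48, 49, 50, 51, 52, 53, 54, 55, 72, 73, 74, 75, 76, 77, 78, 79, 32, 33, 34, 35, 36, 37,
    38, 39, 56, 57, 58, 59, 60, 61, 62, 63, 64, 65, 66, 67, 68, 69, 70, 71, 8, 9, 10, 11,
    12, 13, 14, 15, 24, 25, 26, 27, 28, 29, 30, 31],
   [0, 2, 4, 6, 8, 10, 12, 14, 37, 39, 33, 35, 45, 47, 41, 43, 76, 78, 72, 74, 68, 70, 64, 66,
    24, 26, 28, 30, 16, 18, 20, 22, 56, 58, 60, 62, 48, 50, 52, 54, 61, 63, 57, 59, 53, 55,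
    49, 51, 13, 15, 9, 11, 5, 7, 1, 3, 44, 46, 40, 42, 36, 38, 32, 34, 73, 75, 77, 79, 65,
    67, 69, 71, 31, 29, 27, 25, 23, 21, 19, 17],
   [0, 9, 1, 8, 2, 11, 3, 10, 62, 55, 63, 54, 60, 53, 61, 52, 17, 24, 16, 25, 19, 26, 18, 27,
    74, 67, 75, 66, 72, 65, 73, 64, 33, 40, 32, 41, 35, 42, 34, 43, 59, 50, 58, 51, 57, 48,
    56, 49, 21, 28, 20, 29, 23, 30, 22, 31, 71, 78, 70, 79, 69, 76, 68, 77, 39, 46, 38, 47,
    37, 44, 36, 45, 14, 7, 15, 6, 12, 5, 13, 4],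
   [0, 15, 13, 2, 9, 6, 4, 11, 69, 74, 72, 71, 76, 67, 65, 78, 57, 54, 52, 59, 48, 63, 61, 50,
    41, 38, 36, 43, 32, 47, 45, 34, 31, 16, 18, 29, 22, 25, 27, 20, 39, 40, 42, 37, 46, 33,
    35, 44, 23, 24, 26, 21, 30, 17, 19, 28, 8, 7, 5, 10, 1, 14, 12, 3, 70, 73, 75, 68, 79,
    64, 66, 77, 53, 58, 56, 55, 60, 51, 49, 62],
   [0, 11, 5, 14, 10, 1, 15, 4, 21, 30, 16, 27, 31, 20, 26, 17, 73, 66, 76, 71, 67, 72, 70,
    77, 79, 68, 74, 65, 69, 78, 64, 75, 18, 25, 23, 28, 24, 19, 29, 22, 2, 9, 7, 12, 8, 3,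
    13, 6, 37, 46, 32, 43, 47, 36, 42, 33, 63, 52, 58, 49, 53, 62, 48, 59, 60, 55, 57, 50,
    54, 61, 51, 56, 34, 41, 39, 44, 40, 35, 45, 38],
   [16, 20, 24, 28, 19, 23, 27, 31, 12, 8, 4, 0, 15, 11, 7, 3, 18, 22, 26, 30, 17, 21, 25, 29,
    67, 71, 75, 79, 64, 68, 72, 76, 77, 73, 69, 65, 78, 74, 70, 66, 44, 40, 36, 32, 47, 43,
    39, 35, 9, 13, 1, 5, 10, 14, 2, 6, 42, 46, 34, 38, 41, 45, 33, 37, 49, 53, 57, 61, 50,
    54, 58, 62, 56, 60, 48, 52, 59, 63, 51, 55],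
   [64, 78, 79, 65, 77, 67, 66, 76, 26, 20, 21, 27, 23, 25, 24, 22, 11, 5, 4, 10, 6, 8, 9, 7,
    18, 28, 29, 19, 31, 17, 16, 30, 69, 75, 74, 68, 72, 70, 71, 73, 54, 56, 57, 55, 59, 53,
    52, 58, 41, 39, 38, 40, 36, 42, 43, 37, 1, 15, 14, 0, 12, 2, 3, 13, 32, 46, 47, 33, 45,
    35, 34, 44, 49, 63, 62, 48, 60, 50, 51, 61],
   [64, 72, 67, 75, 70, 78, 69, 77, 76, 68, 79, 71, 74, 66, 73, 65, 20, 28, 23, 31, 18, 26,
    17, 25, 0, 8, 3, 11, 6, 14, 5, 13, 29, 21, 30, 22, 27, 19, 24, 16, 53, 61, 54, 62, 51,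
    59, 48, 56, 52, 60, 55, 63, 50, 58, 49, 57, 33, 41, 34, 42, 39, 47, 36, 44, 9, 1, 10,
    2, 15, 7, 12, 4, 32, 40, 35, 43, 38, 46, 37, 45]]

theorem okDM80 : okDM (codedP 2 (codedP 2 (codedP 2 (codedP 2 (codedZ 5))))) 9 dm80 = true := by
  decide +kernel

end Pool.Agent.TH739.SN
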