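import Pool.Agent.TH739.SN.DM
import Pool.Agent.TH739.SN.Base
import Pool.Agent.TH523.T2.V289
import Pool.Agent.H816R2.DFData
import Pool.Agent.H216R3.StD9
import Pool.Agent.H216R3.StD9c

/-!
The orders `4897, 5401, 6049, 12529, 13185, 15049, 15057` for block size `9`.
-/

set_option autoImplicit false

namespace Pool.Agent.TH739.SN

open Pool.Agent.H816R2.KM2

theorem ok_of {n v : ℕ} (hv : 8 * n + 1 = v) (h : ∃ 𝓑 : Set (Finset (Fin v)), IsS2 (Fin v) 9 𝓑) :
    Ok 8 n := by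
  subst hv
  exact h

theorem ok_of_steiner {n v : ℕ} (hv : 8 * n + 1 = v)
    (h : ∃ 𝓑 : Finset (Finset (Fin v)), Pool.Agent.H816R2.DF.IsSteiner v 9 2 𝓑) : Ok 8 n := by
  classical
  subst hv
  obtain ⟨𝓑, h1, h2⟩ := h
  refine ⟨{B | B ∈ 𝓑}, fun B hB => h1 B hB, ?_⟩
  intro a b hab
  obtain ⟨B, ⟨hB, hs⟩, hu⟩ := h2 {a, b} (Finset.card_pair hab)
  have hsub : ∀ C : Finset (Fin (8 * n + 1)),
      ({a, b} : Finset (Fin (8 * n + 1))) ⊆ C ↔ a ∈ C ∧ b ∈ C := by
    intro C
    rw [Finset.insert_subset_iff, Finset.singleton_subset_iff]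
  obtain ⟨ha, hb⟩ := (hsub B).1 hs
  refine ⟨B, ⟨hB, ha, hb⟩, ?_⟩
  rintro C ⟨hC, hC'⟩
  exact hu C ⟨hC, (hsub C).2 hC'⟩

theorem ok0 : Ok 8 0 := by
  refine ⟨∅, fun B hB => absurd hB (Set.notMem_empty B), fun a b hab => ?_⟩
  exact absurd (Fin.ext (by have h1 := a.2; have h2 := b.2; omega)) hab

theorem ok9 : Ok 8 9 := ok_of rfl d73

theorem ok10 : Ok 8 10 := ok_of rfl d81

theorem ok36 : Ok 8 36 := ok_of rfl Pool.Agent.TH523.T2.ex289

theorem ok64 : Ok 8 64 := ok_of rfl d513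

theorem ok72 : Ok 8 72 := ok_of rfl d577

theorem ok99 : Ok 8 99 := ok_of rfl Pool.Agent.H216R3.StGrp.s793

theorem ok109 : Ok 8 109 := ok_of_steiner rfl Pool.Agent.H816R2.DF.s873

theorem ok163 : Ok 8 163 := ok_of rfl Pool.Agent.H216R3.StGrp.s1305

theorem ok171 : Ok 8 171 := ok_of rfl d1369

theorem ok199 : Ok 8 199 := ok_of rfl Pool.Agent.H216R3.StGrp.s1593

/-- the field with nine elements -/
theorem card9 : Nat.card (GaloisField 3 2) = 9 := by
  rw [GaloisField.card 3 2 (by norm_num)]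
  norm_num

theorem card64 : Nat.card (GaloisField 2 6) = 64 := by
  rw [GaloisField.card 2 6 (by norm_num)]
  norm_num

theorem finite9 : Finite (GaloisField 3 2) :=
  Nat.finite_of_card_ne_zero (by rw [card9]; norm_num)

theorem finite64 : Finite (GaloisField 2 6) :=
  Nat.finite_of_card_ne_zero (by rw [card64]; norm_num)

theorem ok81 : Ok 8 81 := by
  have := finite9
  exact truncated_field (m := 9) (s := 0) (e := 0) (by norm_num) (GaloisField 3 2) card9
    (by norm_num) (by norm_num) (by norm_num) ok9 ok10 ok9 ok0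

theorem ok90 : Ok 8 90 := by
  have := finite9
  exact truncated_field (m := 9) (s := 9) (e := 0) (by norm_num) (GaloisField 3 2) card9
    (by norm_num) (by norm_num) (by norm_num) ok9 ok10 ok9 ok9

theorem ok91 : Ok 8 91 := by
  have := finite9
  exact truncated_field (m := 9) (s := 9) (e := 1) (by norm_num) (GaloisField 3 2) card9
    (by norm_num) (by norm_num) (by norm_num) ok9 ok10 ok10 ok10

/-- `4897 = 8 (9 * 64 + 36) + 1` -/
theorem ok612 : Ok 8 612 := by
  have := finite64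
  exact truncated_field (m := 9) (s := 36) (e := 0) (by norm_num) (GaloisField 2 6) card64
    (by norm_num) (by norm_num) (by norm_num) ok9 ok10 ok64 ok36

theorem prime71 : Nat.Prime 71 := by norm_num

theorem prime163 : Nat.Prime 163 := by norm_num

theorem prime199 : Nat.Prime 199 := by norm_num

theorem prime19 : Nat.Prime 19 := by norm_num

/-- `5401 = 8 (9 * 71 + 35 + 1) + 1` -/
theorem ok675 : Ok 8 675 := by
  have : Fact (Nat.Prime 71) := ⟨prime71⟩
  exact truncated_field (m := 9) (s := 35) (e := 1) (by norm_num) (ZMod 71) (Nat.card_zmod 71)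
    (by norm_num) (by norm_num) (by norm_num) ok9 ok10 ok72 ok36

/-- `6049 = 8 (9 * 80 + 35 + 1) + 1` -/
theorem ok756 : Ok 8 756 :=
  truncated_dm (m := 9) (q := 80) (s := 35) (e := 1) (by norm_num)
    (codedP 2 (codedP 2 (codedP 2 (codedP 2 (codedZ 5))))) dm80 okDM80 rfl
    (by norm_num) (by norm_num) ok9 ok10 ok81 ok36

/-- `12529 = 8 (9 * 163 + 99) + 1` -/
theorem ok1566 : Ok 8 1566 := by
  have : Fact (Nat.Prime 163) := ⟨prime163⟩
  exact truncated_field (m := 9) (s := 99) (e := 0) (by norm_num) (ZMod 163) (Nat.card_zmod 163)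
    (by norm_num) (by norm_num) (by norm_num) ok9 ok10 ok163 ok99

/-- `13185 = 8 (9 * 171 + 109) + 1` -/
theorem ok1648 : Ok 8 1648 := by
  classical
  have := finite9
  have h19 : Fact (Nat.Prime 19) := ⟨prime19⟩
  have := Fintype.ofFinite (GaloisField 3 2)
  obtain ⟨c⟩ : Nonempty (Fin 9 ↪ GaloisField 3 2) := by
    apply Function.Embedding.nonempty_of_card_le
    rw [Fintype.card_fin, ← Nat.card_eq_fintype_card, card9]
  obtain ⟨d⟩ : Nonempty (Fin 9 ↪ ZMod 19) := by
    apply Function.Embedding.nonempty_of_card_le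
    rw [Fintype.card_fin, ZMod.card]
    norm_num
  refine truncated_ring (m := 9) (q := 171) (s := 109) (e := 0) (by norm_num)
    (R := GaloisField 3 2 × ZMod 19) (fun i => (c i, d i)) (fun i j hij => ?_) ?_
    (by norm_num) (by norm_num) ok9 ok10 ok171 ok109
  · rw [Prod.isUnit_iff]
    exact ⟨(sub_ne_zero.2 (c.injective.ne hij)).isUnit,
      (sub_ne_zero.2 (d.injective.ne hij)).isUnit⟩
  · rw [Nat.card_prod, card9, Nat.card_zmod]

/-- `15049 = 8 (9 * 199 + 90) + 1` -/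
theorem ok1881 : Ok 8 1881 := by
  have : Fact (Nat.Prime 199) := ⟨prime199⟩
  exact truncated_field (m := 9) (s := 90) (e := 0) (by norm_num) (ZMod 199) (Nat.card_zmod 199)
    (by norm_num) (by norm_num) (by norm_num) ok9 ok10 ok199 ok90

/-- `15057 = 8 (9 * 199 + 91) + 1` -/
theorem ok1882 : Ok 8 1882 := by
  have : Fact (Nat.Prime 199) := ⟨prime199⟩
  exact truncated_field (m := 9) (s := 91) (e := 0) (by norm_num) (ZMod 199) (Nat.card_zmod 199)
    (by norm_num) (by norm_num) (by norm_num) ok9 ok10 ok199 ok91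

theorem toFinset_form {n v : ℕ} (hv : 8 * n + 1 = v) (h : Ok 8 n) :
    ∃ B : Finset (Finset (Fin v)), (∀ b ∈ B, b.card = 9) ∧
      ∀ T : Finset (Fin v), T.card = 2 → ∃! b, b ∈ B ∧ T ⊆ b := by
  classical
  subst hv
  obtain ⟨𝓑, h1, h2⟩ := h
  refine ⟨Finset.univ.filter (fun B => B ∈ 𝓑), ?_, ?_⟩
  · intro B hB
    exact h1 B (Finset.mem_filter.1 hB).2
  · intro T hT
    obtain ⟨a, b, hab, rfl⟩ := Finset.card_eq_two.1 hT
    obtain ⟨B, ⟨hB, ha, hb⟩, hu⟩ := h2 a b hab
    have hsub : ∀ C : Finset (Fin (8 * n + 1)),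
        ({a, b} : Finset (Fin (8 * n + 1))) ⊆ C ↔ a ∈ C ∧ b ∈ C := by
      intro C
      rw [Finset.insert_subset_iff, Finset.singleton_subset_iff]
    refine ⟨B, ⟨Finset.mem_filter.2 ⟨Finset.mem_univ _, hB⟩, (hsub B).2 ⟨ha, hb⟩⟩, ?_⟩
    rintro C ⟨hC, hC'⟩
    obtain ⟨ha', hb'⟩ := (hsub C).1 hC'
    exact hu C ⟨(Finset.mem_filter.1 hC).2, ha', hb'⟩

end Pool.Agent.TH739.SN
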