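import Pool.Agent.TH739.SN.Orders
import Pool.Agent.TH739.SN.Base2
import Pool.Agent.TH579.SN.D1449

/-!
The orders `1449, 13753, 13833, 13969` for block size `9`.
-/

set_option autoImplicit false

namespace Pool.Agent.TH739.SN

open Pool.Agent.H816R2.KM2

theorem ok181 : Ok 8 181 := ok_of rfl Pool.Agent.TH579.SN.s1449

theorem ok100 : Ok 8 100 := ok_of rfl d801

theorem ok117 : Ok 8 117 := ok_of rfl d937

theorem prime181 : Nat.Prime 181 := by norm_num

/-- `13753 = 8 (9 * 181 + 90) + 1` -/
theorem ok1719 : Ok 8 1719 := by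
  have : Fact (Nat.Prime 181) := ⟨prime181⟩
  exact truncated_field (m := 9) (s := 90) (e := 0) (by norm_num) (ZMod 181) (Nat.card_zmod 181)
    (by norm_num) (by norm_num) (by norm_num) ok9 ok10 ok181 ok90

/-- `13833 = 8 (9 * 181 + 100) + 1` -/
theorem ok1729 : Ok 8 1729 := by
  have : Fact (Nat.Prime 181) := ⟨prime181⟩
  exact truncated_field (m := 9) (s := 100) (e := 0) (by norm_num) (ZMod 181) (Nat.card_zmod 181)
    (by norm_num) (by norm_num) (by norm_num) ok9 ok10 ok181 ok100

/-- `13969 = 8 (9 * 181 + 117) + 1` -/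
theorem ok1746 : Ok 8 1746 := by
  have : Fact (Nat.Prime 181) := ⟨prime181⟩
  exact truncated_field (m := 9) (s := 117) (e := 0) (by norm_num) (ZMod 181) (Nat.card_zmod 181)
    (by norm_num) (by norm_num) (by norm_num) ok9 ok10 ok181 ok117

end Pool.Agent.TH739.SN
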