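import Pool.Agent.TH739.SN.Orders2
import Pool.Agent.TH739.SN.Base8
import Pool.Agent.TH887.ST.V225

/-!
The orders `1793, 1961` for block size `8`, from the new order `225`.
-/

set_option autoImplicit false

namespace Pool.Agent.TH739.SN

open Pool.Agent.H816R2.KM2

theorem ok_of8 {n v : ℕ} (hv : 7 * n + 1 = v)
    (h : ∃ 𝓑 : Set (Finset (Fin v)), IsS2 (Fin v) 8 𝓑) : Ok 7 n := by
  subst hv
  exact h

theorem ok7_8 : Ok 7 8 := ok_of8 rfl d57

theorem ok7_9 : Ok 7 9 := ok_of8 rfl d64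

theorem ok7_32 : Ok 7 32 := ok_of8 rfl Pool.Agent.TH887.ST.ex225

theorem prime31 : Nat.Prime 31 := by norm_num

/-- `1793 = 7 (8 * 31 + 7 + 1) + 1` -/
theorem ok7_256 : Ok 7 256 := by
  have : Fact (Nat.Prime 31) := ⟨prime31⟩
  exact truncated_field (m := 8) (s := 7) (e := 1) (by norm_num) (ZMod 31) (Nat.card_zmod 31)
    (by norm_num) (by norm_num) (by norm_num) ok7_8 ok7_9 ok7_32 ok7_8

/-- `1961 = 7 (8 * 31 + 31 + 1) + 1` -/
theorem ok7_280 : Ok 7 280 := by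
  have : Fact (Nat.Prime 31) := ⟨prime31⟩
  exact truncated_field (m := 8) (s := 31) (e := 1) (by norm_num) (ZMod 31) (Nat.card_zmod 31)
    (by norm_num) (by norm_num) (by norm_num) ok7_8 ok7_9 ok7_32 ok7_32

theorem toSystem {m k : ℕ} (h : ∃ 𝓑 : Set (Finset (Fin m)), IsS2 (Fin m) k 𝓑) :
    ∃ B : Finset (Finset (Fin m)), (∀ b ∈ B, b.card = k) ∧
      ∀ T : Finset (Fin m), T.card = 2 → ∃! b, b ∈ B ∧ T ⊆ b := by
  classical
  obtain ⟨𝓑, h1, h2⟩ := h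
  refine ⟨Finset.univ.filter (fun B => B ∈ 𝓑), ?_, ?_⟩
  · intro B hB
    exact h1 B (Finset.mem_filter.1 hB).2
  · intro T hT
    obtain ⟨a, b, hab, rfl⟩ := Finset.card_eq_two.1 hT
    obtain ⟨B, ⟨hB, ha, hb⟩, hu⟩ := h2 a b hab
    have hsub : ∀ C : Finset (Fin m), ({a, b} : Finset (Fin m)) ⊆ C ↔ a ∈ C ∧ b ∈ C := by
      intro C
      rw [Finset.insert_subset_iff, Finset.singleton_subset_iff]
    refine ⟨B, ⟨Finset.mem_filter.2 ⟨Finset.mem_univ _, hB⟩, (hsub B).2 ⟨ha, hb⟩⟩, ?_⟩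
    rintro C ⟨hC, hC'⟩
    obtain ⟨ha', hb'⟩ := (hsub C).1 hC'
    exact hu C ⟨(Finset.mem_filter.1 hC).2, ha', hb'⟩

/-- the systems of the closure in the form of the result -/
theorem sys {g n v k : ℕ} (hk : g + 1 = k) (hv : g * n + 1 = v) (h : Ok g n) :
    ∃ B : Finset (Finset (Fin v)), (∀ b ∈ B, b.card = k) ∧
      ∀ T : Finset (Fin v), T.card = 2 → ∃! b, b ∈ B ∧ T ⊆ b := by
  subst hk
  subst hv
  exact toSystem h

end Pool.Agent.TH739.SN
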