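import Pool.Agent.TH739.SN.Closure

/-!
Truncated transversal designs over rings and the closure theorem: systems of order
`g (m q + s + e) + 1` from systems of orders `g m + 1`, `g (m + 1) + 1`, `g (q + e) + 1` and
`g (s + e) + 1`.
-/

set_option autoImplicit false

namespace Pool.Agent.TH739.SN

section td

variable {R L : Type} [AddCommGroup R] {m : ℕ}

/-- the incidence of the linear space: lines of the transversal design, groups, truncated group -/
def inc (c : Fin m → L → R) (S : Set L) (e : ℕ) :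
    (Fin m × R) ⊕ (S ⊕ Fin e) → (R × L) ⊕ (Fin m ⊕ Unit) → Prop
  | Sum.inl p, Sum.inl l => p.2 = l.1 + c p.1 l.2
  | Sum.inr (Sum.inl s), Sum.inl l => s.1 = l.2
  | Sum.inr (Sum.inr _), Sum.inl _ => False
  | Sum.inl p, Sum.inr (Sum.inl j) => p.1 = j
  | Sum.inr (Sum.inl _), Sum.inr (Sum.inl _) => False
  | Sum.inr (Sum.inr _), Sum.inr (Sum.inl _) => True
  | Sum.inl _, Sum.inr (Sum.inr _) => False
  | Sum.inr _, Sum.inr (Sum.inr _) => True

theorem inc_unique (c : Fin m → L → R)
    (hc : ∀ i j, i ≠ j → Function.Bijective fun b => c i b - c j b) (S : Set L) (e : ℕ)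
    (he : e ≤ 1) (x y : (Fin m × R) ⊕ (S ⊕ Fin e)) (hxy : x ≠ y) :
    ∃! l, inc c S e x l ∧ inc c S e y l := by
  -- two points of different groups
  have k1 : ∀ (i j : Fin m) (a b : R), i ≠ j →
      ∃! l, inc c S e (Sum.inl (i, a)) l ∧ inc c S e (Sum.inl (j, b)) l := by
    intro i j a b hij
    obtain ⟨u, hu⟩ := (hc i j hij).2 (a - b)
    have hu' : c i u - c j u = a - b := hu
    refine ⟨Sum.inl (a - c i u, u), ⟨?_, ?_⟩, ?_⟩
    · change a = a - c i u + c i u
      abel
    · change b = a - c i u + c j u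
      have : a - c i u + c j u = a - (c i u - c j u) := by abel
      rw [this, hu']
      abel
    · rintro (⟨p, q⟩ | (k | _)) ⟨h1, h2⟩
      · have h1' : a = p + c i q := h1
        have h2' : b = p + c j q := h2
        have h3 : c i q - c j q = a - b := by rw [h1', h2']; abel
        have h4 : q = u := (hc i j hij).1 (h3.trans hu'.symm)
        rw [← h4, h1']
        congr 2
        abel
      · have h1' : i = k := h1
        have h2' : j = k := h2
        exact absurd (h1'.trans h2'.symm) hij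
      · exact h1.elim
  -- a point and a point of the truncated group
  have k2 : ∀ (i : Fin m) (a : R) (s : S),
      ∃! l, inc c S e (Sum.inl (i, a)) l ∧ inc c S e (Sum.inr (Sum.inl s)) l := by
    intro i a s
    refine ⟨Sum.inl (a - c i s.1, s.1), ⟨?_, rfl⟩, ?_⟩
    · change a = a - c i s.1 + c i s.1
      abel
    · rintro (⟨p, q⟩ | (k | _)) ⟨h1, h2⟩
      · have h1' : a = p + c i q := h1
        have h2' : s.1 = q := h2
        rw [h2', h1']
        congr 2
        abel
      · exact h2.elim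
      · exact h1.elim
  have k3 : ∀ (i : Fin m) (a : R) (t : Fin e),
      ∃! l, inc c S e (Sum.inl (i, a)) l ∧ inc c S e (Sum.inr (Sum.inr t)) l := by
    intro i a t
    refine ⟨Sum.inr (Sum.inl i), ⟨rfl, trivial⟩, ?_⟩
    rintro (⟨p, q⟩ | (k | _)) ⟨h1, h2⟩
    · exact h2.elim
    · have h1' : i = k := h1
      rw [h1']
    · exact h1.elim
  have k4 : ∀ (s : S) (t : Fin e),
      ∃! l, inc c S e (Sum.inr (Sum.inl s)) l ∧ inc c S e (Sum.inr (Sum.inr t)) l := by
    intro s t
    refine ⟨Sum.inr (Sum.inr ()), ⟨trivial, trivial⟩, ?_⟩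
    rintro (⟨p, q⟩ | (k | _)) ⟨h1, h2⟩
    · exact h2.elim
    · exact h1.elim
    · rfl
  have sw : ∀ x y : (Fin m × R) ⊕ (S ⊕ Fin e), (∃! l, inc c S e x l ∧ inc c S e y l) →
      ∃! l, inc c S e y l ∧ inc c S e x l := by
    rintro x y ⟨l, ⟨h1, h2⟩, h3⟩
    exact ⟨l, ⟨h2, h1⟩, fun l' h' => h3 l' ⟨h'.2, h'.1⟩⟩
  rcases x with ⟨i, a⟩ | (s | t) <;> rcases y with ⟨j, b⟩ | (s' | t')
  · by_cases hij : i = j
    · subst hij
      have hab : a ≠ b := fun h => hxy (by rw [h])
      refine ⟨Sum.inr (Sum.inl i), ⟨rfl, rfl⟩, ?_⟩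
      rintro (⟨p, q⟩ | (k | _)) ⟨h1, h2⟩
      · have h1' : a = p + c i q := h1
        have h2' : b = p + c i q := h2
        exact absurd (h1'.trans h2'.symm) hab
      · have h1' : i = k := h1
        rw [h1']
      · exact h1.elim
    · exact k1 i j a b hij
  · exact k2 i a s'
  · exact k3 i a t'
  · exact sw _ _ (k2 j b s)
  · have hs : s.1 ≠ s'.1 := fun h => hxy (by rw [Subtype.ext h])
    refine ⟨Sum.inr (Sum.inr ()), ⟨trivial, trivial⟩, ?_⟩
    rintro (⟨p, q⟩ | (k | _)) ⟨h1, h2⟩
    · have h1' : s.1 = q := h1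
      have h2' : s'.1 = q := h2
      exact absurd (h1'.trans h2'.symm) hs
    · exact h1.elim
    · rfl
  · exact k4 s t'
  · exact sw _ _ (k3 j b t)
  · exact sw _ _ (k4 s' t)
  · have : t = t' := by
      apply Fin.ext
      have h1 := t.2
      have h2 := t'.2
      omega
    exact absurd (by rw [this]) hxy

theorem inc_point (c : Fin m → L → R) (S : Set L) (e : ℕ) (x : (Fin m × R) ⊕ (S ⊕ Fin e)) :
    ∃ l, inc c S e x l := by
  rcases x with ⟨i, a⟩ | (s | t)
  · exact ⟨Sum.inr (Sum.inl i), rfl⟩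
  · exact ⟨Sum.inr (Sum.inr ()), trivial⟩
  · exact ⟨Sum.inr (Sum.inr ()), trivial⟩

theorem card_pts [Finite R] [Finite L] (c : Fin m → L → R) (S : Set L) (e : ℕ)
    (l : (R × L) ⊕ (Fin m ⊕ Unit)) :
    Nat.card (Pts (inc c S e) l) =
      Nat.card {p : Fin m × R // inc c S e (Sum.inl p) l} +
        (Nat.card {s : S // inc c S e (Sum.inr (Sum.inl s)) l} +
          Nat.card {t : Fin e // inc c S e (Sum.inr (Sum.inr t)) l}) := by
  unfold Pts
  rw [Nat.card_congr Equiv.subtypeSum, Nat.card_sum, Nat.card_congr Equiv.subtypeSum, Nat.card_sum]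

theorem card_line [Finite R] [Finite L] (c : Fin m → L → R) (S : Set L) (e : ℕ) (a : R) (b : L) :
    Nat.card (Pts (inc c S e) (Sum.inl (a, b))) = m ∨
      Nat.card (Pts (inc c S e) (Sum.inl (a, b))) = m + 1 := by
  classical
  rw [card_pts]
  have e1 : Nat.card {p : Fin m × R // inc c S e (Sum.inl p) (Sum.inl (a, b))} = m := by
    have E : {p : Fin m × R // inc c S e (Sum.inl p) (Sum.inl (a, b))} ≃ Fin m :=
      { toFun := fun p => p.1.1
        invFun := fun i => ⟨(i, a + c i b), rfl⟩
        left_inv := by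
          rintro ⟨⟨i, x⟩, h⟩
          have h' : x = a + c i b := h
          subst h'
          rfl
        right_inv := fun i => rfl }
    rw [Nat.card_congr E, Nat.card_eq_fintype_card, Fintype.card_fin]
  have e3 : Nat.card {t : Fin e // inc c S e (Sum.inr (Sum.inr t)) (Sum.inl (a, b))} = 0 := by
    have : IsEmpty {t : Fin e // inc c S e (Sum.inr (Sum.inr t)) (Sum.inl (a, b))} :=
      ⟨fun t => t.2⟩
    exact Nat.card_of_isEmpty
  have e2 : Nat.card {s : S // inc c S e (Sum.inr (Sum.inl s)) (Sum.inl (a, b))} = 0 ∨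
      Nat.card {s : S // inc c S e (Sum.inr (Sum.inl s)) (Sum.inl (a, b))} = 1 := by
    have hsub : Subsingleton {s : S // inc c S e (Sum.inr (Sum.inl s)) (Sum.inl (a, b))} := by
      constructor
      rintro ⟨s, hs⟩ ⟨t, ht⟩
      have hs' : s.1 = b := hs
      have ht' : t.1 = b := ht
      exact Subtype.ext (Subtype.ext (hs'.trans ht'.symm))
    have h1 := Finite.card_le_one_iff_subsingleton.2 hsub
    omega
  rw [e1, e3]
  omega

theorem card_group [Finite R] [Finite L] (c : Fin m → L → R) (S : Set L) (e : ℕ) (j : Fin m) :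
    Nat.card (Pts (inc c S e) (Sum.inr (Sum.inl j))) = Nat.card R + e := by
  rw [card_pts]
  have e1 : Nat.card {p : Fin m × R // inc c S e (Sum.inl p) (Sum.inr (Sum.inl j))} =
      Nat.card R := by
    have E : {p : Fin m × R // inc c S e (Sum.inl p) (Sum.inr (Sum.inl j))} ≃ R :=
      { toFun := fun p => p.1.2
        invFun := fun x => ⟨(j, x), rfl⟩
        left_inv := by
          rintro ⟨⟨i, x⟩, h⟩
          have h' : i = j := h
          subst h'
          rfl
        right_inv := fun i => rfl }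
    exact Nat.card_congr E
  have e2 : Nat.card {s : S // inc c S e (Sum.inr (Sum.inl s)) (Sum.inr (Sum.inl j))} = 0 := by
    have : IsEmpty {s : S // inc c S e (Sum.inr (Sum.inl s)) (Sum.inr (Sum.inl j))} :=
      ⟨fun t => t.2⟩
    exact Nat.card_of_isEmpty
  have e3 : Nat.card {t : Fin e // inc c S e (Sum.inr (Sum.inr t)) (Sum.inr (Sum.inl j))} = e := by
    have E : {t : Fin e // inc c S e (Sum.inr (Sum.inr t)) (Sum.inr (Sum.inl j))} ≃ Fin e :=
      Equiv.subtypeUnivEquiv fun _ => trivial
    rw [Nat.card_congr E, Nat.card_eq_fintype_card, Fintype.card_fin]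
  rw [e1, e2, e3, Nat.zero_add]

theorem card_last [Finite R] [Finite L] (c : Fin m → L → R) (S : Set L) (e : ℕ) :
    Nat.card (Pts (inc c S e) (Sum.inr (Sum.inr ()))) = Nat.card S + e := by
  rw [card_pts]
  have e1 : Nat.card {p : Fin m × R // inc c S e (Sum.inl p) (Sum.inr (Sum.inr ()))} = 0 := by
    have : IsEmpty {p : Fin m × R // inc c S e (Sum.inl p) (Sum.inr (Sum.inr ()))} :=
      ⟨fun t => t.2⟩
    exact Nat.card_of_isEmpty
  have e2 : Nat.card {s : S // inc c S e (Sum.inr (Sum.inl s)) (Sum.inr (Sum.inr ()))} =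
      Nat.card S := Nat.card_congr (Equiv.subtypeUnivEquiv fun _ => trivial)
  have e3 : Nat.card {t : Fin e // inc c S e (Sum.inr (Sum.inr t)) (Sum.inr (Sum.inr ()))} = e := by
    have E : {t : Fin e // inc c S e (Sum.inr (Sum.inr t)) (Sum.inr (Sum.inr ()))} ≃ Fin e :=
      Equiv.subtypeUnivEquiv fun _ => trivial
    rw [Nat.card_congr E, Nat.card_eq_fintype_card, Fintype.card_fin]
  rw [e1, e2, e3, Nat.zero_add]

end td

/-- there is a Steiner system `S(g n + 1, g + 1, 2)` -/
def Ok (g n : ℕ) : Prop := Ex (g + 1) (Fin (g * n + 1))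

/-- the truncated transversal design of a difference matrix, the groups extended by `e ≤ 1` points -/
theorem truncated {g : ℕ} (hg : 0 < g) {R L : Type} [AddCommGroup R] [Finite R] [Finite L] {m : ℕ}
    (c : Fin m → L → R) (hc : ∀ i j, i ≠ j → Function.Bijective fun b => c i b - c j b)
    {q s e : ℕ} (hq : Nat.card R = q) (hL : Nat.card L = q) (hs : s ≤ q)
    (he : e ≤ 1) (h1 : Ok g m) (h2 : Ok g (m + 1)) (h3 : Ok g (q + e)) (h4 : Ok g (s + e)) :
    Ok g (m * q + s + e) := by
  classical
  have := Fintype.ofFinite L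
  obtain ⟨S, -, hS⟩ := Finset.exists_subset_card_eq
    (show s ≤ (Finset.univ : Finset L).card by
      rw [Finset.card_univ, ← Nat.card_eq_fintype_card, hL]; exact hs)
  have hcS : Nat.card (S : Set L) = s := by
    rw [Nat.card_coe_set_eq, Set.ncard_coe_finset, hS]
  have h := closure (g := g) hg (inc_unique c hc (S : Set L) e he) (inc_point c (S : Set L) e) ?_
  · have hX : Nat.card ((Fin m × R) ⊕ ((S : Set L) ⊕ Fin e)) = m * q + s + e := by
      rw [Nat.card_sum, Nat.card_sum, Nat.card_prod, hcS, hq, Nat.card_eq_fintype_card,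
        Nat.card_eq_fintype_card, Fintype.card_fin, Fintype.card_fin, Nat.add_assoc]
    rw [hX] at h
    exact h
  · rintro (⟨a, b⟩ | (j | _))
    · rcases card_line c (S : Set L) e a b with h | h
      · rw [h]; exact h1
      · rw [h]; exact h2
    · rw [card_group, hq]; exact h3
    · rw [card_last, hcS]; exact h4

/-- the case of a commutative ring with elements whose differences are units -/
theorem truncated_ring {g : ℕ} (hg : 0 < g) {R : Type} [CommRing R] [Finite R] {m : ℕ}
    (c : Fin m → R) (hc : ∀ i j, i ≠ j → IsUnit (c i - c j)) {q s e : ℕ} (hq : Nat.card R = q)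
    (hs : s ≤ q) (he : e ≤ 1) (h1 : Ok g m) (h2 : Ok g (m + 1)) (h3 : Ok g (q + e))
    (h4 : Ok g (s + e)) : Ok g (m * q + s + e) := by
  refine truncated hg (fun i b => b * c i) (fun i j hij => ?_) hq hq hs he h1 h2 h3 h4
  have : (fun b : R => b * c i - b * c j) = fun b => b * (c i - c j) := by
    funext b
    ring
  rw [this, ← Finite.injective_iff_bijective]
  exact (hc i j hij).mul_left_injective

/-- the case of a field -/
theorem truncated_field {g : ℕ} (hg : 0 < g) (K : Type) [Field K] [Finite K] {m q s e : ℕ}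
    (hq : Nat.card K = q) (hm : m ≤ q) (hs : s ≤ q) (he : e ≤ 1) (h1 : Ok g m)
    (h2 : Ok g (m + 1)) (h3 : Ok g (q + e)) (h4 : Ok g (s + e)) : Ok g (m * q + s + e) := by
  classical
  have := Fintype.ofFinite K
  obtain ⟨c⟩ : Nonempty (Fin m ↪ K) := by
    apply Function.Embedding.nonempty_of_card_le
    rw [Fintype.card_fin, ← Nat.card_eq_fintype_card, hq]
    exact hm
  exact truncated_ring hg (fun i => c i) (fun i j hij => (sub_ne_zero.2 (c.injective.ne hij)).isUnit)
    hq hs he h1 h2 h3 h4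

end Pool.Agent.TH739.SN
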